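import Pool.Agent.H72.PC.Str3

/-!
Let `p_0 < p_1 < p_2 < ...` be the prime numbers.

Call a number `Q ≥ 1` full if for all `a`, `b` coprime to `Q` and all `k ≥ 0` there is `T` such that for every `X` there
are integers `h_0, ..., h_(2k+1)` with `X ≤ h_(k+1) - h_k ≤ X + T` such that for infinitely many `n`
`p_(n+i) = p_n + h_i` for `0 ≤ i ≤ 2k+1`, `p_n, ..., p_(n+k)` are `≡ a` and `p_(n+k+1), ..., p_(n+2k+1)` are
`≡ b (mod Q)`: every string `a ... a b ... b` of reduced residue classes occurs among the consecutive primes infinitely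
often, with a fixed pattern of gaps, and the gap in the middle lies in every interval of length `T`.

(1) Of any two coprime numbers one is full.  Hence all powers of all primes except at most one prime are full, and all
numbers coprime to some `Q₀` are full.

(2) For every `Q` at least a third of the `φ(Q)^2` pairs `(a, b)` of reduced residue classes modulo `Q` are such that for
every `X` there is `h ≥ X` such that for infinitely many `n` `p_(n+1) = p_n + h`, `p_n ≡ a`, `p_(n+1) ≡ b (mod Q)`.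
-/

namespace Pool.Agent.Results.MP_8923e7_nt.ConsecutiveStrings

/-- every string of `k + 1` consecutive primes `≡ a` followed by `k + 1` consecutive primes `≡ b (mod Q)` occurs
infinitely often with a fixed pattern `h` of gaps, the gap in the middle in every interval of some length `T` -/
def Strings (Q : ℕ) : Prop :=
  ∀ a b : ℕ, Nat.Coprime a Q → Nat.Coprime b Q → ∀ k : ℕ, ∃ T : ℕ, ∀ X : ℕ, ∃ h : ℕ → ℕ,
    h k + X ≤ h (k + 1) ∧ h (k + 1) ≤ h k + X + T ∧
      {n : ℕ | ∀ i ≤ 2 * k + 1, Nat.nth Nat.Prime (n + i) = Nat.nth Nat.Prime n + h i ∧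
        Nat.nth Nat.Prime (n + i) ≡ (if i ≤ k then a else b) [MOD Q]}.Infinite

/-- for every `X` some `h ≥ X` is for infinitely many `n` the difference of the consecutive primes `p_n ≡ a` and
`p_(n+1) ≡ b (mod Q)` -/
def Pairs (Q a b : ℕ) : Prop :=
  ∀ X : ℕ, ∃ h : ℕ, X ≤ h ∧ {n : ℕ | Nat.nth Nat.Prime (n + 1) = Nat.nth Nat.Prime n + h ∧
    Nat.nth Nat.Prime n ≡ a [MOD Q] ∧ Nat.nth Nat.Prime (n + 1) ≡ b [MOD Q]}.Infinite

open Classical in
theorem result :
    (∀ Q₁ Q₂ : ℕ, 0 < Q₁ → 0 < Q₂ → Nat.Coprime Q₁ Q₂ → Strings Q₁ ∨ Strings Q₂) ∧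
    (∃ p₀ : ℕ, ∀ p : ℕ, p.Prime → p ≠ p₀ → ∀ e : ℕ, Strings (p ^ e)) ∧
    (∃ Q₀ : ℕ, 0 < Q₀ ∧ ∀ Q : ℕ, 0 < Q → Nat.Coprime Q Q₀ → Strings Q) ∧
    ∀ Q : ℕ, 0 < Q → Q.totient ^ 2 ≤ 3 * ((Finset.range Q ×ˢ Finset.range Q).filter
      (fun p : ℕ × ℕ => Nat.Coprime p.1 Q ∧ Nat.Coprime p.2 Q ∧ Pairs Q p.1 p.2)).card := by
  refine ⟨fun Q₁ Q₂ h1 h2 hc => ?_, ?_, ?_, fun Q hQ => ?_⟩
  · exact (Pool.Agent.H72.PC.strings_two Q₁ Q₂ h1 h2 hc).imp
      Pool.Agent.H72.PC.strings_of Pool.Agent.H72.PC.strings_of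
  · obtain ⟨p₀, h⟩ := Pool.Agent.H72.PC.strings_primes
    exact ⟨p₀, fun p hp hne e => Pool.Agent.H72.PC.strings_of (h p hp hne e)⟩
  · obtain ⟨Q₀, h0, h⟩ := Pool.Agent.H72.PC.strings_modulus
    exact ⟨Q₀, h0, fun Q hQ hc => Pool.Agent.H72.PC.strings_of (h Q hQ hc)⟩
  · exact Pool.Agent.H72.PC.third_pairs Q hQ

end Pool.Agent.Results.MP_8923e7_nt.ConsecutiveStrings
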